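import Pool.Agent.Helper259.Menger.Defs

/-!
# Kept cubes, membership criterion
-/

namespace Pool.Agent.Helper259.Menger

open Finset

theorem kept_iff (n : ℕ) : ∀ (k : ℕ) (a : Fin (2 * n + 1) → ℕ), Kept n k a ↔
    (∀ j, a j < 3 ^ k) ∧
      ∀ q < k, (univ.filter (fun j => a j / 3 ^ q % 3 = 1)).card ≤ n := by
  intro k
  induction k with
  | zero =>
    intro a
    simp [Kept]
  | succ k ih =>
    intro a
    rw [Kept, ih]
    constructor
    · rintro ⟨⟨h1, h2⟩, h3⟩
      refine ⟨fun j => ?_, fun q hq => ?_⟩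
      · have := h1 j
        rw [pow_succ]
        omega
      · rcases q with _ | q
        · simpa using h3
        · have := h2 q (by omega)
          have he : ∀ j, a j / 3 ^ (q + 1) = a j / 3 / 3 ^ q := by
            intro j
            rw [Nat.div_div_eq_div_mul, pow_succ, mul_comm]
          simp only [he]
          exact this
    · rintro ⟨h1, h2⟩
      refine ⟨⟨fun j => ?_, fun q hq => ?_⟩, ?_⟩
      · have := h1 j
        rw [pow_succ] at this
        omega
      · have := h2 (q + 1) (by omega)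
        have he : ∀ j, a j / 3 ^ (q + 1) = a j / 3 / 3 ^ q := by
          intro j
          rw [Nat.div_div_eq_div_mul, pow_succ, mul_comm]
        simp only [he] at this
        exact this
      · simpa using h2 0 (by omega)

theorem Kept.lt {n k : ℕ} {a : Fin (2 * n + 1) → ℕ} (h : Kept n k a) (j) : a j < 3 ^ k :=
  ((kept_iff n k a).1 h).1 j

theorem mem_stage_iff {n k : ℕ} {x : Fin (2 * n + 1) → ℝ} : x ∈ Stage n k ↔
    ∃ a : Fin (2 * n + 1) → ℕ, Kept n k a ∧
      ∀ j, (a j : ℝ) ≤ 3 ^ k * x j ∧ 3 ^ k * x j ≤ (a j : ℝ) + 1 := by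
  have h3 : (0 : ℝ) < 3 ^ k := by positivity
  constructor
  · rintro ⟨a, ha, h⟩
    refine ⟨a, ha, fun j => ?_⟩
    obtain ⟨h1, h2⟩ := h j
    rw [div_le_iff₀ h3] at h1
    rw [le_div_iff₀ h3] at h2
    constructor <;> linarith
  · rintro ⟨a, ha, h⟩
    refine ⟨a, ha, fun j => ?_⟩
    obtain ⟨h1, h2⟩ := h j
    rw [div_le_iff₀ h3, le_div_iff₀ h3]
    constructor <;> linarith

theorem stage_succ_subset (n k : ℕ) : Stage n (k + 1) ⊆ Stage n k := by
  intro x hx
  rw [mem_stage_iff] at hx ⊢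
  obtain ⟨a, ha, h⟩ := hx
  refine ⟨fun j => a j / 3, ha.1, fun j => ?_⟩
  obtain ⟨h1, h2⟩ := h j
  have e1 : ((3 * (a j / 3) : ℕ) : ℝ) ≤ (a j : ℝ) := by
    exact_mod_cast (by omega : 3 * (a j / 3) ≤ a j)
  have e2 : ((a j : ℕ) : ℝ) + 1 ≤ ((3 * (a j / 3) + 3 : ℕ) : ℝ) := by
    exact_mod_cast (by omega : a j + 1 ≤ 3 * (a j / 3) + 3)
  push_cast at e1 e2
  rw [pow_succ] at h1 h2
  constructor <;> nlinarith

theorem stage_mono {n k l : ℕ} (h : k ≤ l) : Stage n l ⊆ Stage n k := by
  induction l, h using Nat.le_induction with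
  | base => exact subset_rfl
  | succ l _ ih => exact (stage_succ_subset n l).trans ih

/-- The membership criterion: if `p` lies in a kept cube of level `K` and all but at most `n`
coordinates are endpoints, then `p ∈ μ^n`. -/
theorem mem_menger_of_endpoints {n K : ℕ} {i : Fin (2 * n + 1) → ℕ} {p : Fin (2 * n + 1) → ℝ}
    (hi : Kept n K i) (hp : ∀ j, (i j : ℝ) ≤ 3 ^ K * p j ∧ 3 ^ K * p j ≤ (i j : ℝ) + 1)
    (F : Finset (Fin (2 * n + 1))) (hF : F.card ≤ n)
    (he : ∀ j ∉ F, 3 ^ K * p j = i j ∨ 3 ^ K * p j = (i j : ℝ) + 1) : p ∈ menger n := by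
  have key : ∀ L, K ≤ L → ∃ a : Fin (2 * n + 1) → ℕ, Kept n L a ∧
      (∀ j, (a j : ℝ) ≤ 3 ^ L * p j ∧ 3 ^ L * p j ≤ (a j : ℝ) + 1) ∧
      (∀ j ∉ F, 3 ^ L * p j = a j ∨ 3 ^ L * p j = (a j : ℝ) + 1) := by
    intro L hL
    induction L, hL using Nat.le_induction with
    | base => exact ⟨i, hi, hp, he⟩
    | succ L _ ih =>
      obtain ⟨a, ha, h1, h2⟩ := ih
      have hd : ∀ j, ∃ d : ℕ, d < 3 ∧ (((3 * a j + d : ℕ) : ℝ) ≤ 3 ^ (L + 1) * p j ∧
          3 ^ (L + 1) * p j ≤ ((3 * a j + d : ℕ) : ℝ) + 1) ∧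
          (j ∉ F → d ≠ 1 ∧ (3 ^ (L + 1) * p j = ((3 * a j + d : ℕ) : ℝ) ∨
            3 ^ (L + 1) * p j = ((3 * a j + d : ℕ) : ℝ) + 1)) := by
        intro j
        have e : (3 : ℝ) ^ (L + 1) * p j = 3 * (3 ^ L * p j) := by ring
        obtain ⟨g1, g2⟩ := h1 j
        rw [e]
        by_cases hj : j ∈ F
        · by_cases c1 : 3 * (3 ^ L * p j) ≤ 3 * (a j : ℝ) + 1
          · refine ⟨0, by norm_num, ⟨?_, ?_⟩, fun h => absurd hj h⟩
            · push_cast; linarith
            · push_cast; linarith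
          · by_cases c2 : 3 * (3 ^ L * p j) ≤ 3 * (a j : ℝ) + 2
            · refine ⟨1, by norm_num, ⟨?_, ?_⟩, fun h => absurd hj h⟩
              · push_cast; linarith
              · push_cast; linarith
            · refine ⟨2, by norm_num, ⟨?_, ?_⟩, fun h => absurd hj h⟩
              · push_cast; linarith
              · push_cast; linarith
        · rcases h2 j hj with h | h
          · refine ⟨0, by norm_num, ⟨?_, ?_⟩, fun _ => ⟨by norm_num, Or.inl ?_⟩⟩
            · push_cast; linarith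
            · push_cast; linarith
            · push_cast; linarith
          · refine ⟨2, by norm_num, ⟨?_, ?_⟩, fun _ => ⟨by norm_num, Or.inr ?_⟩⟩
            · push_cast; linarith
            · push_cast; linarith
            · push_cast; linarith
      choose d hd1 hd2 hd3 using hd
      refine ⟨fun j => 3 * a j + d j, ⟨?_, ?_⟩, fun j => hd2 j, fun j hj => (hd3 j hj).2⟩
      · have : (fun j => (3 * a j + d j) / 3) = a := by
          funext j
          have := hd1 j
          omega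
        rw [this]
        exact ha
      · refine le_trans (card_le_card ?_) hF
        intro j hj
        by_contra hjF
        have h1 := (hd3 j hjF).1
        have h2 := hd1 j
        rw [mem_filter] at hj
        have h3 : (3 * a j + d j) % 3 = 1 := hj.2
        omega
  rw [menger, Set.mem_iInter]
  intro L
  rcases le_total K L with h | h
  · obtain ⟨a, ha, h1, _⟩ := key L h
    exact mem_stage_iff.2 ⟨a, ha, h1⟩
  · exact stage_mono h (mem_stage_iff.2 ⟨i, hi, hp⟩)

theorem exists_kept {n : ℕ} {x : Fin (2 * n + 1) → ℝ} (hx : x ∈ menger n) (k : ℕ) :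
    ∃ a : Fin (2 * n + 1) → ℕ, Kept n k a ∧
      ∀ j, (a j : ℝ) ≤ 3 ^ k * x j ∧ 3 ^ k * x j ≤ (a j : ℝ) + 1 :=
  mem_stage_iff.1 (Set.mem_iInter.1 hx k)

end Pool.Agent.Helper259.Menger
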