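import Pool.Agent.Helper259.Menger.OneDim
import Pool.Agent.Helper259.Menger.Digits

/-!
# One coordinate of the map, and the proof that it stays in the Menger compactum
-/

namespace Pool.Agent.Helper259.Menger

/-- one coordinate of the map (at scale `1`) -/
noncomputable def comb (lam Y : ℝ) : ℝ := (1 - lam) * Ef (sig 3 (Y / 3)) + lam * (Ef Y / 3)

/-- the coordinate is rigid -/
def NonFree (lam Y : ℝ) : Prop :=
  (lam = 0 ∧ ∃ c : ℤ, sig 3 (Y / 3) = c) ∨ (lam = 1 ∧ ∃ c : ℤ, Y = c)

theorem exists_index_of_mem {c : ℕ} {P : ℝ} (h1 : (c : ℝ) ≤ P) (h2 : P ≤ c + 1) :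
    ∃ i : ℕ, (i : ℝ) ≤ 9 * P ∧ 9 * P ≤ i + 1 ∧ i / 9 = c := by
  have hP : 0 ≤ P := le_trans (Nat.cast_nonneg c) h1
  rcases h2.lt_or_eq with h | h
  · refine ⟨⌊9 * P⌋₊, Nat.floor_le (by linarith), (Nat.lt_floor_add_one _).le, ?_⟩
    have a1 : 9 * c ≤ ⌊9 * P⌋₊ := Nat.le_floor (by push_cast; linarith)
    have a2 : ⌊9 * P⌋₊ < 9 * c + 9 := by
      rw [Nat.floor_lt (by linarith)]
      push_cast
      linarith
    omega
  · refine ⟨9 * c + 8, ?_, ?_, by omega⟩
    · push_cast; linarith
    · push_cast; linarith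

theorem lo_Ef {b : ℕ} {X : ℝ} (h1 : (b : ℝ) ≤ X) (h2 : X ≤ b + 1) :
    ((if sb b = true then (b : ℝ) else b - 1) ≤ Ef X) ∧
    (Ef X ≤ if sb (b + 1) = true then (b : ℝ) + 2 else b + 1) := by
  have e := Sf_eq (c := (b : ℤ)) (X := X) (by exact_mod_cast h1) (by exact_mod_cast h2)
  have e1 : ((b : ℤ) + 1) = ((b + 1 : ℕ) : ℤ) := by push_cast; ring
  rw [e1, sr_nat, sr_nat] at e
  push_cast at e
  unfold Ef
  rw [e]
  constructor <;> split_ifs <;> linarith

theorem lo_Ef3 {b : ℕ} {Y : ℝ} (h1 : 3 * (b : ℝ) ≤ Y) (h2 : Y ≤ 3 * b + 3) :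
    ((if sb b = true then (b : ℝ) else b - 1) ≤ Ef Y / 3) ∧
    (Ef Y / 3 ≤ if sb (b + 1) = true then (b : ℝ) + 2 else b + 1) := by
  have s0 : sb (3 * b) = sb b := sb_three_mul b
  have s3 : sb (3 * b + 2 + 1) = sb (b + 1) := by
    rw [show 3 * b + 2 + 1 = 3 * (b + 1) by ring, sb_three_mul]
  have hle := le_Sf Y
  have hge := Sf_le Y
  constructor
  · split_ifs with hb
    · by_cases hY : Y ≤ 3 * b + 1
      · have := (lo_Ef (b := 3 * b) (X := Y) (by push_cast; linarith)
          (by push_cast; linarith)).1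
        rw [s0, hb] at this
        simp only [if_true] at this
        push_cast at this
        linarith
      · unfold Ef; linarith
    · unfold Ef; linarith
  · split_ifs with hb
    · unfold Ef; linarith
    · by_cases hY : Y ≤ 3 * b + 2
      · unfold Ef; linarith
      · have := (lo_Ef (b := 3 * b + 2) (X := Y) (by push_cast; linarith)
          (by push_cast; linarith)).2
        rw [s3, if_neg hb] at this
        push_cast at this
        linarith

theorem sig_mem_nat {c : ℕ} {M X : ℝ} (h1 : (c : ℝ) ≤ X) (h2 : X ≤ c + 1) :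
    (c : ℝ) ≤ sig M X ∧ sig M X ≤ c + 1 := by
  have := sig_mem (c := (c : ℤ)) (M := M) (X := X) (by exact_mod_cast h1) (by exact_mod_cast h2)
  exact_mod_cast this

theorem sig_mem3 {b : ℕ} {M X : ℝ} (h1 : 3 * (b : ℝ) ≤ X) (h2 : X ≤ 3 * b + 3) :
    3 * (b : ℝ) ≤ sig M X ∧ sig M X ≤ 3 * b + 3 := by
  by_cases c1 : X ≤ 3 * b + 1
  · have := sig_mem_nat (c := 3 * b) (M := M) (X := X) (by push_cast; linarith)
      (by push_cast; linarith)
    push_cast at this
    constructor <;> linarith
  · by_cases c2 : X ≤ 3 * b + 2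
    · have := sig_mem_nat (c := 3 * b + 1) (M := M) (X := X) (by push_cast; linarith)
        (by push_cast; linarith)
      push_cast at this
      constructor <;> linarith
    · have := sig_mem_nat (c := 3 * b + 2) (M := M) (X := X) (by push_cast; linarith)
        (by push_cast; linarith)
      push_cast at this
      constructor <;> linarith

theorem comb_bounds {b : ℕ} {lam Y : ℝ} (l0 : 0 ≤ lam) (l1 : lam ≤ 1)
    (h1 : 3 * (b : ℝ) ≤ Y) (h2 : Y ≤ 3 * b + 3) :
    ((if sb b = true then (b : ℝ) else b - 1) ≤ comb lam Y) ∧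
    (comb lam Y ≤ if sb (b + 1) = true then (b : ℝ) + 2 else b + 1) := by
  obtain ⟨g1, g2⟩ := sig_mem_nat (c := b) (M := 3) (X := Y / 3) (by linarith) (by linarith)
  obtain ⟨a1, a2⟩ := lo_Ef g1 g2
  obtain ⟨a3, a4⟩ := lo_Ef3 h1 h2
  unfold comb
  constructor
  · nlinarith
  · nlinarith

theorem exists_index {k b : ℕ} (hb : b < 3 ^ k) {lam Y : ℝ} (l0 : 0 ≤ lam) (l1 : lam ≤ 1)
    (h1 : 3 * (b : ℝ) ≤ Y) (h2 : Y ≤ 3 * b + 3) :
    ∃ i : ℕ, (i : ℝ) ≤ 9 * comb lam Y ∧ 9 * comb lam Y ≤ i + 1 ∧ Dom k (i / 9) b ∧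
      (NonFree lam Y → (9 * comb lam Y = i ∨ 9 * comb lam Y = i + 1) ∧ i % 3 ≠ 1 ∧
        i / 3 % 3 ≠ 1) := by
  have hpow : sb (3 ^ k) = false := sb_pow k
  -- domination facts
  have dtrue : ∀ g : ℕ, (g = b ∨ g = b + 1) → sb g = true → Dom k g b := by
    intro g hg hs
    rcases hg with rfl | rfl
    · exact Dom.refl hb
    · refine dom_of_true ?_ hs
      rcases (by omega : b + 1 < 3 ^ k ∨ b + 1 = 3 ^ k) with h | h
      · exact h
      · rw [h, hpow] at hs
        exact absurd hs (by simp)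
  have dfalse : ∀ g : ℕ, (g + 1 = b ∨ g + 1 = b + 1) → sb (g + 1) = false → Dom k g b := by
    intro g hg hs
    rcases hg with h | h
    · subst h
      exact dom_of_false (by omega) hs
    · have : g = b := by omega
      subst this
      exact Dom.refl hb
  by_cases hnf : NonFree lam Y
  · rcases hnf with ⟨hl, c, hc⟩ | ⟨hl, c, hc⟩
    · -- `lam = 0`
      obtain ⟨g1, g2⟩ := sig_mem_nat (c := b) (M := 3) (X := Y / 3) (by linarith) (by linarith)
      rw [hc] at g1 g2
      have i1 : (b : ℤ) ≤ c := by exact_mod_cast g1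
      have i2 : c ≤ (b : ℤ) + 1 := by exact_mod_cast g2
      obtain ⟨g, rfl⟩ : ∃ g : ℕ, c = g := ⟨c.toNat, by omega⟩
      have hg : g = b ∨ g = b + 1 := by omega
      have hP : comb lam Y = g + 2 / 3 * (if sb g = true then (1 : ℝ) else -1) := by
        unfold comb
        rw [hl, hc, Ef_int, sr_nat]
        push_cast
        ring
      by_cases hs : sb g = true
      · rw [if_pos hs] at hP
        refine ⟨9 * g + 6, ?_, ?_, ?_, fun _ => ⟨Or.inl ?_, by omega, by omega⟩⟩
        · rw [hP]; push_cast; linarith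
        · rw [hP]; push_cast; linarith
        · rw [show (9 * g + 6) / 9 = g by omega]
          exact dtrue g hg hs
        · rw [hP]; push_cast; ring
      · rw [if_neg hs] at hP
        have hs' : sb g = false := by simpa using hs
        obtain ⟨g', rfl⟩ : ∃ g', g = g' + 1 := by
          rcases g with _ | g'
          · exact absurd sb_zero hs
          · exact ⟨g', rfl⟩
        refine ⟨9 * g' + 2, ?_, ?_, ?_, fun _ => ⟨Or.inr ?_, by omega, by omega⟩⟩
        · rw [hP]; push_cast; linarith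
        · rw [hP]; push_cast; linarith
        · rw [show (9 * g' + 2) / 9 = g' by omega]
          exact dfalse g' hg hs'
        · rw [hP]; push_cast; ring
    · -- `lam = 1`
      rw [hc] at h1 h2
      have i1 : 3 * (b : ℤ) ≤ c := by exact_mod_cast h1
      have i2 : c ≤ 3 * (b : ℤ) + 3 := by exact_mod_cast h2
      obtain ⟨g, rfl⟩ : ∃ g : ℕ, c = g := ⟨c.toNat, by omega⟩
      have hP : comb lam Y = (g + 2 / 3 * (if sb g = true then (1 : ℝ) else -1)) / 3 := by
        unfold comb
        rw [hl, hc, Ef_int, sr_nat]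
        push_cast
        ring
      by_cases hs : sb g = true
      · rw [if_pos hs] at hP
        have hg1 : g % 3 ≠ 1 := by
          intro h
          rw [sb_mod_one h] at hs
          exact absurd hs (by simp)
        refine ⟨3 * g + 2, ?_, ?_, ?_, fun _ => ⟨Or.inl ?_, by omega, by omega⟩⟩
        · rw [hP]; push_cast; linarith
        · rw [hP]; push_cast; linarith
        · rw [show (3 * g + 2) / 9 = g / 3 by omega]
          by_cases h3 : g / 3 = b
          · rw [h3]; exact Dom.refl hb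
          · have h4 : g = 3 * (b + 1) := by omega
            rw [h4, sb_three_mul] at hs
            have h5 : g / 3 = b + 1 := by omega
            rw [h5]
            exact dtrue _ (Or.inr rfl) hs
        · rw [hP]; push_cast; ring
      · rw [if_neg hs] at hP
        have hs' : sb g = false := by simpa using hs
        obtain ⟨g', rfl⟩ : ∃ g', g = g' + 1 := by
          rcases g with _ | g'
          · exact absurd sb_zero hs
          · exact ⟨g', rfl⟩
        have hg1 : (g' + 1) % 3 ≠ 2 := by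
          intro h
          rw [sb_mod_two h] at hs'
          exact absurd hs' (by simp)
        refine ⟨3 * g', ?_, ?_, ?_, fun _ => ⟨Or.inr ?_, by omega, by omega⟩⟩
        · rw [hP]; push_cast; linarith
        · rw [hP]; push_cast; linarith
        · rw [show (3 * g') / 9 = g' / 3 by omega]
          by_cases h3 : g' / 3 = b
          · rw [h3]; exact Dom.refl hb
          · have h4 : g' + 1 = 3 * b := by omega
            rw [h4, sb_three_mul] at hs'
            obtain ⟨b', hb'⟩ : ∃ b', b = b' + 1 := ⟨b - 1, by omega⟩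
            have h5 : g' / 3 = b' := by omega
            rw [h5]
            exact dfalse _ (Or.inl hb'.symm) (by rw [← hb']; exact hs')
        · rw [hP]; push_cast; ring
  · obtain ⟨hlo, hhi⟩ := comb_bounds l0 l1 h1 h2
    have hfin : ∀ c : ℕ, Dom k c b → (c : ℝ) ≤ comb lam Y → comb lam Y ≤ c + 1 →
        ∃ i : ℕ, (i : ℝ) ≤ 9 * comb lam Y ∧ 9 * comb lam Y ≤ i + 1 ∧ Dom k (i / 9) b ∧
      (NonFree lam Y → (9 * comb lam Y = i ∨ 9 * comb lam Y = i + 1) ∧ i % 3 ≠ 1 ∧
        i / 3 % 3 ≠ 1) := by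
      intro c hD g1 g2
      obtain ⟨i, i1, i2, i3⟩ := exists_index_of_mem g1 g2
      exact ⟨i, i1, i2, by rw [i3]; exact hD, fun h => absurd h hnf⟩
    by_cases c1 : comb lam Y < b
    · have hs : sb b = false := by
        by_contra hs
        have hs' : sb b = true := by simpa using hs
        rw [if_pos hs'] at hlo
        linarith
      have hs' : ¬ (sb b = true) := by simp [hs]
      rw [if_neg hs'] at hlo
      obtain ⟨b', rfl⟩ : ∃ b', b = b' + 1 := by
        rcases b with _ | b'
        · exact absurd sb_zero hs'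
        · exact ⟨b', rfl⟩
      push_cast at hlo c1
      exact hfin b' (dfalse b' (Or.inl rfl) hs) (by linarith) (by linarith)
    · by_cases c2 : comb lam Y ≤ b + 1
      · exact hfin b (Dom.refl hb) (by linarith) c2
      · have hs : sb (b + 1) = true := by
          by_contra hs
          rw [if_neg hs] at hhi
          exact c2 hhi
        rw [if_pos hs] at hhi
        exact hfin (b + 1) (dtrue _ (Or.inr rfl) hs) (by push_cast; linarith)
          (by push_cast; linarith)

/-- a rigid coordinate is displaced -/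
theorem displaced {lam M X : ℝ} (h : NonFree lam (sig M (3 * X))) :
    comb lam (sig M (3 * X)) ≠ X := by
  intro hP
  have hd := abs_le.1 (sig_sub_le (M := M) (X := 3 * X))
  rcases h with ⟨hl, c, hc⟩ | ⟨hl, c, hc⟩
  · have hd3 := abs_le.1 (sig_three_sub_le (X := sig M (3 * X) / 3))
    unfold comb at hP
    rw [hl, hc, Ef_int] at hP
    rw [hc] at hd3
    rcases sr_cases c with h | h <;> rw [h] at hP <;> linarith
  · unfold comb at hP
    rw [hl, hc, Ef_int] at hP
    rw [hc] at hd
    rcases sr_cases c with h | h <;> rw [h] at hP <;> linarith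

theorem comb_mem_menger {n k : ℕ} {x : Fin (2 * n + 1) → ℝ} (hx : x ∈ menger n) {M : ℝ}
    {lam : Fin (2 * n + 1) → ℝ} (l0 : ∀ j, 0 ≤ lam j) (l1 : ∀ j, lam j ≤ 1)
    (F : Finset (Fin (2 * n + 1))) (hF : F.card ≤ n)
    (hnf : ∀ j ∉ F, NonFree (lam j) (sig M (3 ^ (k + 1) * x j))) :
    (fun j => comb (lam j) (sig M (3 ^ (k + 1) * x j)) / 3 ^ k) ∈ menger n := by
  obtain ⟨b, hb, hbx⟩ := exists_kept hx k
  have hY : ∀ j, 3 * (b j : ℝ) ≤ sig M (3 ^ (k + 1) * x j) ∧
      sig M (3 ^ (k + 1) * x j) ≤ 3 * b j + 3 := by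
    intro j
    obtain ⟨g1, g2⟩ := hbx j
    refine sig_mem3 ?_ ?_
    · rw [pow_succ]; linarith
    · rw [pow_succ]; linarith
  have hi : ∀ j, ∃ i : ℕ, (i : ℝ) ≤ 9 * comb (lam j) (sig M (3 ^ (k + 1) * x j)) ∧
      9 * comb (lam j) (sig M (3 ^ (k + 1) * x j)) ≤ i + 1 ∧ Dom k (i / 9) (b j) ∧
      (NonFree (lam j) (sig M (3 ^ (k + 1) * x j)) →
        (9 * comb (lam j) (sig M (3 ^ (k + 1) * x j)) = i ∨
          9 * comb (lam j) (sig M (3 ^ (k + 1) * x j)) = i + 1) ∧ i % 3 ≠ 1 ∧
        i / 3 % 3 ≠ 1) := fun j =>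
    exists_index (hb.lt j) (l0 j) (l1 j) (hY j).1 (hY j).2
  choose i i1 i2 i3 i4 using hi
  have hscale : ∀ j, (3 : ℝ) ^ (k + 2) * (comb (lam j) (sig M (3 ^ (k + 1) * x j)) / 3 ^ k) =
      9 * comb (lam j) (sig M (3 ^ (k + 1) * x j)) := by
    intro j
    have : (3 : ℝ) ^ k ≠ 0 := by positivity
    field_simp
    ring
  refine mem_menger_of_endpoints (K := k + 2) (i := i) ?_ ?_ F hF ?_
  · rw [kept_iff]
    obtain ⟨hb1, hb2⟩ := (kept_iff n k b).1 hb
    refine ⟨fun j => ?_, fun q hq => ?_⟩
    · have := (i3 j).1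
      rw [pow_succ, pow_succ]
      omega
    · rcases q with _ | _ | q
      · refine le_trans (Finset.card_le_card ?_) hF
        intro j hj
        by_contra hjF
        rw [Finset.mem_filter] at hj
        have := (i4 j (hnf j hjF)).2.1
        apply this
        simpa using hj.2
      · refine le_trans (Finset.card_le_card ?_) hF
        intro j hj
        by_contra hjF
        rw [Finset.mem_filter] at hj
        have := (i4 j (hnf j hjF)).2.2
        apply this
        simpa using hj.2
      · refine le_trans (Finset.card_le_card ?_) (hb2 q (by omega))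
        intro j hj
        rw [Finset.mem_filter] at hj ⊢
        refine ⟨hj.1, (i3 j).2 q (by omega) ?_⟩
        have e : i j / 3 ^ (q + 1 + 1) = i j / 9 / 3 ^ q := by
          rw [div_pow_succ, div_pow_succ, Nat.div_div_eq_div_mul (i j) 3 3]
        rw [← e]
        exact hj.2
  · intro j
    rw [hscale]
    exact ⟨i1 j, i2 j⟩
  · intro j hj
    rw [hscale]
    exact (i4 j (hnf j hj)).1

end Pool.Agent.Helper259.Menger
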