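import Mathlib

/-!
# The Menger compactum `μ^n` and the complete invariance property: definitions
-/

namespace Pool.Agent.Helper259.Menger

/-- `Kept n k a` : the closed cube of side `3^{-k}` whose corner (the vertex with the smallest
coordinates) is `a / 3^k` is one of the cubes of the `k`-th stage of the construction of the
Menger compactum `μ^n` in `[0,1]^{2n+1}`.
At stage `0` there is just the cube `[0,1]^{2n+1}`.  The cube with index `a` of stage `k+1` is a
subcube of the cube with index `a / 3` of stage `k`, it occupies the middle third in the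
coordinate `j` iff `a j % 3 = 1`, and it is kept iff its parent was kept and this happens for at
most `n` coordinates. -/
def Kept (n : ℕ) : ℕ → (Fin (2 * n + 1) → ℕ) → Prop
  | 0, a => ∀ j, a j = 0
  | k + 1, a => Kept n k (fun j => a j / 3) ∧
      (Finset.univ.filter (fun j => a j % 3 = 1)).card ≤ n

/-- `Stage n k` is the union `M_k` of the kept cubes of side `3^{-k}`. -/
def Stage (n k : ℕ) : Set (Fin (2 * n + 1) → ℝ) :=
  {x | ∃ a : Fin (2 * n + 1) → ℕ, Kept n k a ∧
    ∀ j, (a j : ℝ) / 3 ^ k ≤ x j ∧ x j ≤ ((a j : ℝ) + 1) / 3 ^ k}

/-- The `n`-dimensional universal Menger compactum `μ^n = ⋂_k M_k`. -/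
def menger (n : ℕ) : Set (Fin (2 * n + 1) → ℝ) := ⋂ k, Stage n k

/-- The complete invariance property: every nonempty closed set is the fixed point set of a
continuous self-map. -/
def HasCIP (X : Type*) [TopologicalSpace X] : Prop :=
  ∀ A : Set X, IsClosed A → A.Nonempty →
    ∃ f : X → X, Continuous f ∧ {x | f x = x} = A

end Pool.Agent.Helper259.Menger
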