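import Pool.Agent.Helper259.Menger.Param

/-!
# The scale function
-/

namespace Pool.Agent.Helper259.Menger

open Finset

variable {n : ℕ}

/-- quantisation at level `L` -/
noncomputable def rho (L : ℕ) (x : Fin (2 * n + 1) → ℝ) : Fin (2 * n + 1) → ℝ :=
  fun j => sig 3 (3 ^ L * x j) / 3 ^ L

theorem continuous_rho (L : ℕ) : Continuous (rho (n := n) L) := by
  refine continuous_pi (fun j => ?_)
  unfold rho
  refine Continuous.div_const ?_ _
  exact continuous_sig.comp (continuous_const.prodMk (continuous_const.mul (continuous_apply j)))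

theorem rho_dist (L : ℕ) (x : Fin (2 * n + 1) → ℝ) : dist (rho L x) x ≤ 1 / 3 / 3 ^ L := by
  have h3 : (0 : ℝ) < 3 ^ L := by positivity
  rw [dist_pi_le_iff (by positivity)]
  intro j
  rw [Real.dist_eq]
  unfold rho
  have e : sig 3 (3 ^ L * x j) / 3 ^ L - x j = (sig 3 (3 ^ L * x j) - 3 ^ L * x j) / 3 ^ L := by
    field_simp
  rw [e, abs_div, abs_of_pos h3, div_le_div_iff_of_pos_right h3]
  exact sig_three_sub_le

noncomputable def ph (u : ℝ) : ℝ := max 0 (min 1 (2 - u))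

theorem continuous_ph : Continuous ph := by unfold ph; fun_prop

theorem ph_nonneg (u : ℝ) : 0 ≤ ph u := le_max_left _ _

theorem ph_le_one (u : ℝ) : ph u ≤ 1 := max_le (by norm_num) (min_le_left _ _)

theorem one_lt_of_ph {u : ℝ} (h : ph u < 1) : 1 < u := by
  by_contra hcon
  push Not at hcon
  unfold ph at h
  rw [min_eq_left (by linarith), max_eq_right (by norm_num)] at h
  exact absurd h (lt_irrefl _)

theorem ph_lt_one {u : ℝ} (h : 1 < u) : ph u < 1 := by
  unfold ph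
  rw [min_eq_right (by linarith)]
  exact max_lt (by norm_num) (by linarith)

theorem ph_eq_zero {u : ℝ} (h : 2 ≤ u) : ph u = 0 := by
  unfold ph
  rw [min_eq_right (by linarith), max_eq_left (by linarith)]

noncomputable def Df (A : Set (Fin (2 * n + 1) → ℝ)) (N : ℕ) (x : Fin (2 * n + 1) → ℝ) : ℝ :=
  3 ^ N * Metric.infDist (rho (N + 2) x) A

theorem continuous_Df (A : Set (Fin (2 * n + 1) → ℝ)) (N : ℕ) : Continuous (Df A N) := by
  unfold Df
  exact continuous_const.mul ((Metric.continuous_infDist_pt A).comp (continuous_rho _))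

theorem Df_ge (A : Set (Fin (2 * n + 1) → ℝ)) (N : ℕ) (x : Fin (2 * n + 1) → ℝ) :
    3 ^ N * Metric.infDist x A - 1 / 27 ≤ Df A N x := by
  have h1 : Metric.infDist x A ≤ Metric.infDist (rho (N + 2) x) A + dist x (rho (N + 2) x) :=
    Metric.infDist_le_infDist_add_dist
  have h2 := rho_dist (N + 2) x
  rw [dist_comm] at h2
  have h3 : (0 : ℝ) < 3 ^ N := by positivity
  have e : (3 : ℝ) ^ N * (1 / 3 / 3 ^ (N + 2)) = 1 / 27 := by
    rw [pow_add]; field_simp; norm_num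
  unfold Df
  nlinarith

theorem Df_le (A : Set (Fin (2 * n + 1) → ℝ)) (N : ℕ) (x : Fin (2 * n + 1) → ℝ) :
    Df A N x ≤ 3 ^ N * Metric.infDist x A + 1 / 27 := by
  have h1 : Metric.infDist (rho (N + 2) x) A ≤ Metric.infDist x A + dist (rho (N + 2) x) x :=
    Metric.infDist_le_infDist_add_dist
  have h2 := rho_dist (N + 2) x
  have h3 : (0 : ℝ) < 3 ^ N := by positivity
  have e : (3 : ℝ) ^ N * (1 / 3 / 3 ^ (N + 2)) = 1 / 27 := by
    rw [pow_add]; field_simp; norm_num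
  unfold Df
  nlinarith

noncomputable def hf (A : Set (Fin (2 * n + 1) → ℝ)) (x : Fin (2 * n + 1) → ℝ) : ℝ :=
  ∑ᶠ N : ℕ, ph (Df A N x)

theorem hf_eq (A : Set (Fin (2 * n + 1) → ℝ)) {x : Fin (2 * n + 1) → ℝ}
    (hd : 0 < Metric.infDist x A) :
    ∃ N : ℕ, hf A x = N + ph (Df A N x) ∧ 1 < Df A N x := by
  classical
  have hex : ∃ N : ℕ, ph (Df A N x) < 1 := by
    obtain ⟨N, hN⟩ := pow_unbounded_of_one_lt (2 / Metric.infDist x A) (by norm_num : (1 : ℝ) < 3)
    refine ⟨N, ph_lt_one ?_⟩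
    have := Df_ge A N x
    rw [div_lt_iff₀ hd] at hN
    linarith
  set N1 := Nat.find hex with hN1
  have h1 : ph (Df A N1 x) < 1 := Nat.find_spec hex
  have h2 : ∀ N < N1, ph (Df A N x) = 1 := by
    intro N hN
    have := Nat.find_min hex hN
    push Not at this
    exact le_antisymm (ph_le_one _) this
  have h3 : 1 < Df A N1 x := one_lt_of_ph h1
  have h4 : ∀ N, N1 < N → ph (Df A N x) = 0 := by
    intro N hN
    refine ph_eq_zero ?_
    have a1 := Df_le A N1 x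
    have a2 := Df_ge A N x
    have a3 : (3 : ℝ) ^ (N1 + 1) ≤ 3 ^ N := pow_le_pow_right₀ (by norm_num) hN
    rw [pow_succ] at a3
    nlinarith
  refine ⟨N1, ?_, h3⟩
  unfold hf
  rw [finsum_eq_sum_of_support_subset (s := range (N1 + 1))]
  · rw [sum_range_succ]
    congr 1
    rw [sum_congr rfl (fun N hN => h2 N (mem_range.1 hN))]
    simp
  · intro N hN
    rw [Function.mem_support] at hN
    simp only [coe_range, Set.mem_Iio]
    by_contra hcon
    exact hN (h4 N (by omega))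

theorem continuous_hf {Z : Type*} [TopologicalSpace Z] (A : Set (Fin (2 * n + 1) → ℝ))
    {x : Z → Fin (2 * n + 1) → ℝ} (hx : Continuous x) (hd : ∀ z, 0 < Metric.infDist (x z) A) :
    Continuous (fun z => hf A (x z)) := by
  unfold hf
  refine continuous_finsum (fun N => continuous_ph.comp ((continuous_Df A N).comp hx)) ?_
  intro z0
  refine ⟨{z | Metric.infDist (x z0) A / 2 < Metric.infDist (x z) A}, ?_, ?_⟩
  · refine IsOpen.mem_nhds ?_ ?_
    · exact isOpen_lt continuous_const ((Metric.continuous_infDist_pt A).comp hx)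
    · have := hd z0
      show Metric.infDist (x z0) A / 2 < Metric.infDist (x z0) A
      linarith
  · obtain ⟨N0, hN0⟩ := pow_unbounded_of_one_lt (5 / Metric.infDist (x z0) A)
      (by norm_num : (1 : ℝ) < 3)
    refine (Set.finite_Iio N0).subset ?_
    rintro N ⟨z, hz1, hz2⟩
    rw [Function.mem_support] at hz1
    rw [Set.mem_Iio]
    by_contra hcon
    push Not at hcon
    apply hz1
    refine ph_eq_zero ?_
    have a1 := Df_ge A N (x z)
    have a2 : (3 : ℝ) ^ N0 ≤ 3 ^ N := pow_le_pow_right₀ (by norm_num) hcon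
    rw [div_lt_iff₀ (hd z0)] at hN0
    have a3 : Metric.infDist (x z0) A / 2 < Metric.infDist (x z) A := hz2
    have a4 := hd z0
    have a5 : (0 : ℝ) < 3 ^ N0 := by positivity
    have a6 : (3 : ℝ) ^ N0 * (Metric.infDist (x z0) A / 2) ≤ 3 ^ N * Metric.infDist (x z) A := by
      refine mul_le_mul a2 a3.le (by positivity) (by positivity)
    have : 2 ≤ Df A N (x z) := by linarith
    exact this

theorem sig3_rat (q : ℚ) : ∃ r : ℚ, sig 3 (q : ℝ) = r := by
  refine ⟨⌊q⌋ + 1 / 2 + 1 / 2 * max (-1) (min 1 (max 1 3 * (2 * (q - ⌊q⌋) - 1))), ?_⟩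
  have f1 : ((⌊q⌋ : ℤ) : ℚ) ≤ q := Int.floor_le q
  have f2 : q ≤ (⌊q⌋ : ℚ) + 1 := (Int.lt_floor_add_one q).le
  have g1 : ((⌊q⌋ : ℤ) : ℝ) ≤ (q : ℝ) := by exact_mod_cast f1
  have g2 : (q : ℝ) ≤ ((⌊q⌋ : ℤ) : ℝ) + 1 := by exact_mod_cast f2
  rw [sig_eq g1 g2]
  push_cast
  rfl

theorem three_pow_half (r : ℕ) : ∃ q : ℕ, 3 ^ (r + 1) = 2 * q + 1 ∧ q % 3 = 1 := by
  induction r with
  | zero => exact ⟨1, by norm_num, by norm_num⟩
  | succ r ih =>
    obtain ⟨q, h1, h2⟩ := ih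
    refine ⟨3 * q + 1, ?_, by omega⟩
    rw [pow_succ, h1]
    ring

/-- if `n` coordinates of `x ∈ μ^n` are centres at level `k+1`, then the quantisations of
`x` at all levels `L ≥ k+1` are rational points. -/
theorem rho_rat {k L : ℕ} (hL : k + 1 ≤ L) {x : Fin (2 * n + 1) → ℝ} (hx : x ∈ menger n)
    {S : Finset (Fin (2 * n + 1))} (hS : S.card = n) (hSu : ∀ j ∈ S, uf (3 ^ (k + 1) * x j) = 0) :
    ∃ p : Fin (2 * n + 1) → ℚ, rho L x = fun j => (p j : ℝ) := by
  obtain ⟨a, ha, hax⟩ := exists_kept hx (L + 1)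
  have hcen : ∀ j ∈ S, ∃ c : ℤ, 3 ^ (k + 1) * x j = c + 1 / 2 := by
    intro j hj
    have h := hSu j hj
    unfold uf at h
    have h' : 2 * Int.fract (3 ^ (k + 1) * x j) - 1 = 0 := by
      have : |2 * Int.fract (3 ^ (k + 1) * x j) - 1| = 0 := by linarith
      exact abs_eq_zero.1 this
    rw [Int.fract] at h'
    exact ⟨⌊3 ^ (k + 1) * x j⌋, by linarith⟩
  have hSa : ∀ j ∈ S, a j % 3 = 1 := by
    intro j hj
    obtain ⟨c, hc⟩ := hcen j hj
    obtain ⟨r, rfl⟩ : ∃ r, L = k + 1 + r := ⟨L - (k + 1), by omega⟩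
    obtain ⟨q, hq1, hq2⟩ := three_pow_half r
    obtain ⟨g1, g2⟩ := hax j
    have e : (3 : ℝ) ^ (k + 1 + r + 1) * x j = (3 ^ (r + 1) * c + q : ℤ) + 1 / 2 := by
      have e1 : (3 : ℝ) ^ (k + 1 + r + 1) * x j = 3 ^ (r + 1) * (3 ^ (k + 1) * x j) := by ring
      have e2 : (3 : ℝ) ^ (r + 1) = 2 * q + 1 := by exact_mod_cast hq1
      rw [e1, hc, mul_add, e2]
      push_cast
      rw [e2]
      ring
    rw [e] at g1 g2
    have i1 : (a j : ℤ) < (3 ^ (r + 1) * c + q : ℤ) + 1 := by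
      have : ((a j : ℤ) : ℝ) < (((3 ^ (r + 1) * c + q : ℤ) + 1 : ℤ) : ℝ) := by
        push_cast at g1 g2 ⊢; linarith
      exact_mod_cast this
    have i2 : (3 ^ (r + 1) * c + q : ℤ) < (a j : ℤ) + 1 := by
      have : ((3 ^ (r + 1) * c + q : ℤ) : ℝ) < (((a j : ℤ) + 1 : ℤ) : ℝ) := by
        push_cast at g1 g2 ⊢; linarith
      exact_mod_cast this
    have i3 : (a j : ℤ) = 3 * (3 ^ r * c) + q := by
      have : (3 : ℤ) ^ (r + 1) * c = 3 * (3 ^ r * c) := by ring
      omega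
    omega
  have hSsub : S ⊆ univ.filter (fun j => a j % 3 = 1) := by
    intro j hj
    exact mem_filter.2 ⟨mem_univ _, hSa j hj⟩
  have hSeq : S = univ.filter (fun j => a j % 3 = 1) :=
    eq_of_subset_of_card_le hSsub (by rw [hS]; exact ha.2)
  have hrat : ∀ j, ∃ r : ℚ, rho L x j = r := by
    intro j
    have hsig : ∃ r : ℚ, sig 3 (3 ^ L * x j) = r := by
      by_cases hj : j ∈ S
      · obtain ⟨c, hc⟩ := hcen j hj
        obtain ⟨r, rfl⟩ : ∃ r, L = k + 1 + r := ⟨L - (k + 1), by omega⟩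
        have e : (3 : ℝ) ^ (k + 1 + r) * x j = ((3 ^ r * (c + 1 / 2) : ℚ) : ℝ) := by
          have e1 : (3 : ℝ) ^ (k + 1 + r) * x j = 3 ^ r * (3 ^ (k + 1) * x j) := by ring
          rw [e1, hc]
          push_cast
          ring
        rw [e]
        exact sig3_rat _
      · have hj' : a j % 3 ≠ 1 := by
          intro h
          apply hj
          rw [hSeq]
          exact mem_filter.2 ⟨mem_univ _, h⟩
        obtain ⟨g1, g2⟩ := hax j
        obtain ⟨g, hg⟩ := sig_of_digit (a := a j) (M := 3) (X := 3 ^ L * x j) le_rfl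
          (by rw [pow_succ] at g1; linarith) (by rw [pow_succ] at g2; linarith) hj'
        exact ⟨g, by rw [hg]; push_cast; rfl⟩
    obtain ⟨r, hr⟩ := hsig
    refine ⟨r / 3 ^ L, ?_⟩
    unfold rho
    rw [hr]
    push_cast
    rfl
  choose p hp using hrat
  exact ⟨p, funext hp⟩

/-- the bad values of the offset -/
noncomputable def bad (A : Set (Fin (2 * n + 1) → ℝ)) : Set ℝ :=
  Set.range (fun z : ℕ × ℕ × (Fin (2 * n + 1) → ℚ) =>
    (z.1 : ℝ) + 3 / 4 -
      (z.2.1 + ph (3 ^ z.2.1 * Metric.infDist (fun j => (z.2.2 j : ℝ)) A)))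

theorem exists_offset (A : Set (Fin (2 * n + 1) → ℝ)) : ∃ θ : ℝ, 0 < θ ∧ θ < 1 ∧ θ ∉ bad A := by
  have hc : (bad A).Countable := Set.countable_range _
  have hdense : Dense (bad A)ᶜ := hc.dense_compl ℝ
  obtain ⟨θ, h1, h2, h3⟩ := hdense.exists_between (by norm_num : (0 : ℝ) < 1)
  exact ⟨θ, h2, h3, h1⟩

theorem avoid (hn : 1 ≤ n) {A : Set (Fin (2 * n + 1) → ℝ)} {θ : ℝ} (hθ0 : 0 < θ) (hθ1 : θ < 1)
    (hθ : θ ∉ bad A) {x : Fin (2 * n + 1) → ℝ} (hx : x ∈ menger n)
    (hd : 0 < Metric.infDist x A) {k : ℕ} (ht : θ + hf A x = k + 3 / 4) : 0 < bf k x := by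
  by_contra hcon
  push Not at hcon
  obtain ⟨S, hS, hSu⟩ := beta_zero hn (fun j => uf_nonneg _) hcon
  obtain ⟨N, hN, hN1⟩ := hf_eq A hd
  have hph := ph_lt_one hN1
  have hph0 := ph_nonneg (Df A N x)
  have hNk : k + 1 ≤ N + 2 := by
    have : (k : ℝ) < N + 2 := by linarith
    have : k < N + 2 := by exact_mod_cast this
    omega
  obtain ⟨p, hp⟩ := rho_rat hNk hx hS hSu
  apply hθ
  refine ⟨(k, N, p), ?_⟩
  show (k : ℝ) + 3 / 4 - (N + ph (3 ^ N * Metric.infDist (fun j => (p j : ℝ)) A)) = θ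
  rw [← hp]
  rw [hN] at ht
  unfold Df at ht
  linarith

end Pool.Agent.Helper259.Menger
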