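import Pool.Agent.Helper259.Menger.Height

/-!
# The Menger compacta have the complete invariance property
-/

namespace Pool.Agent.Helper259.Menger

open Finset

variable {n : ℕ}

noncomputable def clam (u : ℝ) : ℝ := max 0 (min 1 u)

theorem clam_nonneg (u : ℝ) : 0 ≤ clam u := le_max_left _ _

theorem clam_le_one (u : ℝ) : clam u ≤ 1 := max_le (by norm_num) (min_le_left _ _)

theorem clam_of_mem {u : ℝ} (h0 : 0 ≤ u) (h1 : u ≤ 1) : clam u = u := by
  unfold clam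
  rw [min_eq_right h1, max_eq_right h0]

/-- the scale -/
noncomputable def Tf (A : Set (Fin (2 * n + 1) → ℝ)) (θ : ℝ) (x : Fin (2 * n + 1) → ℝ) : ℝ :=
  θ + hf A x

noncomputable def Ff (A : Set (Fin (2 * n + 1) → ℝ)) (θ : ℝ) (x : Fin (2 * n + 1) → ℝ) :
    Fin (2 * n + 1) → ℝ :=
  Gf ⌊Tf A θ x⌋₊ x (Tf A θ x - ⌊Tf A θ x⌋₊)

theorem Nf_pos (hn : 1 ≤ n) {A : Set (Fin (2 * n + 1) → ℝ)} {θ : ℝ} (hθ0 : 0 < θ) (hθ1 : θ < 1)
    (hθ : θ ∉ bad A) {x : Fin (2 * n + 1) → ℝ} (hx : x ∈ menger n)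
    (hd : 0 < Metric.infDist x A) (k : ℕ) : 0 < Nf k x (clam (Tf A θ x - k)) := by
  unfold Nf
  refine lt_min one_pos ?_
  by_cases h : 4 * clam (Tf A θ x - k) - 3 = 0
  · refine lt_max_of_lt_right (avoid hn hθ0 hθ1 hθ hx hd (k := k) ?_)
    have h1 : clam (Tf A θ x - k) = 3 / 4 := by linarith
    unfold clam at h1
    rcases le_total (Tf A θ x - k) 0 with h2 | h2
    · rw [min_eq_right (by linarith), max_eq_left h2] at h1
      norm_num at h1
    · rcases le_total 1 (Tf A θ x - k) with h3 | h3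
      · rw [min_eq_left h3, max_eq_right (by norm_num)] at h1
        norm_num at h1
      · rw [min_eq_right h3, max_eq_right h2] at h1
        unfold Tf at h1
        linarith
  · exact lt_max_of_lt_left (abs_pos.2 h)

theorem Tf_nonneg {A : Set (Fin (2 * n + 1) → ℝ)} {θ : ℝ} (hθ0 : 0 < θ)
    {x : Fin (2 * n + 1) → ℝ} (hd : 0 < Metric.infDist x A) : 0 ≤ Tf A θ x := by
  obtain ⟨N, hN, _⟩ := hf_eq A hd
  have := ph_nonneg (Df A N x)
  have h2 : (0 : ℝ) ≤ N := Nat.cast_nonneg N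
  unfold Tf
  rw [hN]
  linarith

theorem Ff_eq (A : Set (Fin (2 * n + 1) → ℝ)) {θ : ℝ} {x : Fin (2 * n + 1) → ℝ} {k : ℕ}
    (h1 : (k : ℝ) ≤ Tf A θ x) (h2 : Tf A θ x ≤ k + 1) :
    Ff A θ x = Gf k x (clam (Tf A θ x - k)) := by
  unfold Ff
  rcases h2.lt_or_eq with h | h
  · have hf : ⌊Tf A θ x⌋₊ = k := by
      rw [Nat.floor_eq_iff (le_trans (Nat.cast_nonneg k) h1)]
      exact ⟨h1, h⟩
    rw [hf, clam_of_mem (by linarith) (by linarith)]
  · have hf : ⌊Tf A θ x⌋₊ = k + 1 := by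
      rw [Nat.floor_eq_iff (le_trans (Nat.cast_nonneg k) h1)]
      push_cast
      constructor <;> linarith
    rw [hf, h]
    have e1 : (k : ℝ) + 1 - ((k + 1 : ℕ) : ℝ) = 0 := by push_cast; ring
    have e2 : clam ((k : ℝ) + 1 - k) = 1 := by
      rw [clam_of_mem] <;> linarith
    rw [e1, e2, Gf_one]

theorem Ff_eq_floor (A : Set (Fin (2 * n + 1) → ℝ)) {θ : ℝ} (hθ0 : 0 < θ)
    {x : Fin (2 * n + 1) → ℝ} (hd : 0 < Metric.infDist x A) :
    Ff A θ x = Gf ⌊Tf A θ x⌋₊ x (clam (Tf A θ x - ⌊Tf A θ x⌋₊)) :=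
  Ff_eq A (Nat.floor_le (Tf_nonneg hθ0 hd)) (Nat.lt_floor_add_one _).le

theorem Ff_mem (hn : 1 ≤ n) {A : Set (Fin (2 * n + 1) → ℝ)} {θ : ℝ} (hθ0 : 0 < θ) (hθ1 : θ < 1)
    (hθ : θ ∉ bad A) {x : Fin (2 * n + 1) → ℝ} (hx : x ∈ menger n)
    (hd : 0 < Metric.infDist x A) : Ff A θ x ∈ menger n := by
  rw [Ff_eq_floor A hθ0 hd]
  exact Gf_mem hn _ hx (clam_nonneg _) (clam_le_one _) (Nf_pos hn hθ0 hθ1 hθ hx hd _)

theorem Ff_ne (hn : 1 ≤ n) {A : Set (Fin (2 * n + 1) → ℝ)} {θ : ℝ} (hθ0 : 0 < θ) (hθ1 : θ < 1)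
    (hθ : θ ∉ bad A) {x : Fin (2 * n + 1) → ℝ} (hx : x ∈ menger n)
    (hd : 0 < Metric.infDist x A) : Ff A θ x ≠ x := by
  rw [Ff_eq_floor A hθ0 hd]
  exact Gf_ne hn _ hx (clam_nonneg _) (clam_le_one _) (Nf_pos hn hθ0 hθ1 hθ hx hd _)

theorem Ff_dist {A : Set (Fin (2 * n + 1) → ℝ)} {θ : ℝ} (hθ0 : 0 < θ)
    {x : Fin (2 * n + 1) → ℝ} (hx : x ∈ menger n)
    (hd : 0 < Metric.infDist x A) : dist (Ff A θ x) x ≤ 3 * Metric.infDist x A := by
  obtain ⟨N, hN, hN1⟩ := hf_eq A hd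
  have hph0 := ph_nonneg (Df A N x)
  have hfl : N ≤ ⌊Tf A θ x⌋₊ := by
    refine Nat.le_floor ?_
    unfold Tf
    rw [hN]
    linarith
  have h1 : dist (Ff A θ x) x ≤ 2 / 3 ^ ⌊Tf A θ x⌋₊ := Gf_dist _ hx _
  have h2 : (3 : ℝ) ^ N ≤ 3 ^ ⌊Tf A θ x⌋₊ := pow_le_pow_right₀ (by norm_num) hfl
  have h3 : (0 : ℝ) < 3 ^ N := by positivity
  have h4 : (2 : ℝ) / 3 ^ ⌊Tf A θ x⌋₊ ≤ 2 / 3 ^ N := by
    exact div_le_div_of_nonneg_left (by norm_num) h3 h2
  refine h1.trans (h4.trans ?_)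
  rw [div_le_iff₀ h3]
  have := Df_le A N x
  linarith

theorem continuous_Ff {Z : Type*} [TopologicalSpace Z] (hn : 1 ≤ n)
    {A : Set (Fin (2 * n + 1) → ℝ)} {θ : ℝ}
    (hθ0 : 0 < θ) (hθ1 : θ < 1) (hθ : θ ∉ bad A) {x : Z → Fin (2 * n + 1) → ℝ}
    (hx : Continuous x) (hxm : ∀ z, x z ∈ menger n) (hd : ∀ z, 0 < Metric.infDist (x z) A) :
    Continuous (fun z => Ff A θ (x z)) := by
  have hT : Continuous (fun z => Tf A θ (x z)) := by
    unfold Tf
    exact continuous_const.add (continuous_hf A hx hd)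
  refine LocallyFinite.continuous
    (f := fun k : ℕ => {z | (k : ℝ) ≤ Tf A θ (x z) ∧ Tf A θ (x z) ≤ k + 1}) ?_ ?_ ?_ ?_
  · intro z0
    refine ⟨{z | Tf A θ (x z) < Tf A θ (x z0) + 1}, ?_, ?_⟩
    · refine (isOpen_lt hT continuous_const).mem_nhds ?_
      show Tf A θ (x z0) < Tf A θ (x z0) + 1
      linarith
    · refine (Set.finite_Iic ⌈Tf A θ (x z0) + 1⌉₊).subset ?_
      rintro k ⟨z, ⟨hz1, _⟩, hz2⟩
      rw [Set.mem_Iic]
      have hz2' : Tf A θ (x z) < Tf A θ (x z0) + 1 := hz2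
      have : (k : ℝ) ≤ ⌈Tf A θ (x z0) + 1⌉₊ := by
        have := Nat.le_ceil (Tf A θ (x z0) + 1)
        linarith
      exact_mod_cast this
  · rw [Set.eq_univ_iff_forall]
    intro z
    rw [Set.mem_iUnion]
    exact ⟨⌊Tf A θ (x z)⌋₊, Nat.floor_le (Tf_nonneg hθ0 (hd z)), (Nat.lt_floor_add_one _).le⟩
  · intro k
    exact (isClosed_le continuous_const hT).inter (isClosed_le hT continuous_const)
  · intro k
    have hc : Continuous (fun z => Gf k (x z) (clam (Tf A θ (x z) - k))) := by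
      refine continuous_Gf k hx ?_ (fun z => Nf_pos hn hθ0 hθ1 hθ (hxm z) (hd z) k)
      unfold clam
      fun_prop
    refine hc.continuousOn.congr (fun z hz => ?_)
    exact Ff_eq A hz.1 hz.2

/-- **The Menger compactum `μ^n`, `n ≥ 1`, has the complete invariance property.** -/
theorem menger_cip (n : ℕ) (hn : 1 ≤ n) : HasCIP (menger n) := by
  classical
  intro A hA hAne
  set A' : Set (Fin (2 * n + 1) → ℝ) := Subtype.val '' A with hA'
  obtain ⟨θ, hθ0, hθ1, hθ⟩ := exists_offset A'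
  have hinf : ∀ x : menger n, Metric.infDist (x : Fin (2 * n + 1) → ℝ) A' =
      Metric.infDist x A := fun x => Metric.infDist_image isometry_subtype_coe
  have hpos : ∀ x : menger n, x ∉ A → 0 < Metric.infDist (x : Fin (2 * n + 1) → ℝ) A' := by
    intro x hx
    rw [hinf]
    exact (hA.notMem_iff_infDist_pos hAne).1 hx
  let f : menger n → menger n := fun x =>
    if h : x ∈ A then x else ⟨Ff A' θ x, Ff_mem hn hθ0 hθ1 hθ x.2 (hpos x h)⟩
  have f_in : ∀ x (h : x ∈ A), f x = x := fun x h => dif_pos h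
  have f_out : ∀ x (h : x ∉ A), f x = ⟨Ff A' θ x, Ff_mem hn hθ0 hθ1 hθ x.2 (hpos x h)⟩ :=
    fun x h => dif_neg h
  refine ⟨f, ?_, ?_⟩
  · rw [continuous_iff_continuousAt]
    intro x
    by_cases hx : x ∈ A
    · rw [Metric.continuousAt_iff]
      intro ε hε
      refine ⟨ε / 4, by positivity, fun y hy => ?_⟩
      rw [f_in x hx]
      by_cases hyA : y ∈ A
      · rw [f_in y hyA]
        linarith
      · have h1 : dist (f y) y ≤ 3 * Metric.infDist y A := by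
          rw [f_out y hyA, ← hinf y, Subtype.dist_eq]
          exact Ff_dist hθ0 y.2 (hpos y hyA)
        have h2 : Metric.infDist y A ≤ dist y x := Metric.infDist_le_dist_of_mem hx
        have h3 : dist (f y) x ≤ dist (f y) y + dist y x := dist_triangle _ _ _
        linarith
    · have hcon : ContinuousOn f Aᶜ := by
        rw [continuousOn_iff_continuous_domRestrict]
        have hcF : Continuous (fun z : (Aᶜ : Set (menger n)) => Ff A' θ (z : menger n)) :=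
          continuous_Ff hn hθ0 hθ1 hθ (continuous_subtype_val.comp continuous_subtype_val)
            (fun z => z.1.2) (fun z => hpos z.1 z.2)
        have : (Aᶜ : Set (menger n)).domRestrict f = fun z : (Aᶜ : Set (menger n)) =>
            (⟨Ff A' θ (z : menger n), Ff_mem hn hθ0 hθ1 hθ z.1.2 (hpos z.1 z.2)⟩ : menger n) := by
          funext z
          exact f_out z.1 z.2
        rw [this]
        exact hcF.subtype_mk _
      exact hcon.continuousAt (hA.isOpen_compl.mem_nhds hx)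
  · ext x
    constructor
    · intro h
      by_contra hx
      have h' : f x = x := h
      rw [f_out x hx] at h'
      exact Ff_ne hn hθ0 hθ1 hθ x.2 (hpos x hx) (congrArg Subtype.val h')
    · intro hx
      exact f_in x hx

end Pool.Agent.Helper259.Menger
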