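import Mathlib

/-!
# One-dimensional functions: the sign function, its interpolation, and the pinching maps
-/

namespace Pool.Agent.Helper259.Menger

/-- sign of the grid point `c` (`true` is `+`, `false` is `-`); it does not depend on the level. -/
def sb (c : ℕ) : Bool :=
  if c = 0 then true
  else if c % 3 = 1 then false
  else if c % 3 = 2 then true
  else sb (c / 3)
termination_by c
decreasing_by omega

theorem sb_zero : sb 0 = true := by
  rw [sb]; simp

theorem sb_mod_one {c : ℕ} (h : c % 3 = 1) : sb c = false := by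
  rw [sb]
  have : c ≠ 0 := by omega
  simp [this, h]

theorem sb_mod_two {c : ℕ} (h : c % 3 = 2) : sb c = true := by
  rw [sb]
  have : c ≠ 0 := by omega
  simp [h]

theorem sb_mod_zero {c : ℕ} (h : c % 3 = 0) : sb c = sb (c / 3) := by
  by_cases hc : c = 0
  · subst hc; rfl
  · rw [sb]
    simp [hc, h]

theorem sb_three_mul (c : ℕ) : sb (3 * c) = sb c := by
  rw [sb_mod_zero (by omega)]
  congr 1
  omega

theorem sb_pow (k : ℕ) : sb (3 ^ k) = false := by
  induction k with
  | zero => exact sb_mod_one (by norm_num)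
  | succ k ih => rw [pow_succ, mul_comm, sb_three_mul, ih]

/-- `Dom k b' b`: wherever the `k`-digit expansion of `b'` has a `1`, so has that of `b`. -/
def Dom (k b' b : ℕ) : Prop := b' < 3 ^ k ∧ ∀ q < k, b' / 3 ^ q % 3 = 1 → b / 3 ^ q % 3 = 1

theorem Dom.refl {k b : ℕ} (h : b < 3 ^ k) : Dom k b b := ⟨h, fun _ _ h => h⟩

theorem div_pow_succ (a q : ℕ) : a / 3 ^ (q + 1) = a / 3 / 3 ^ q := by
  rw [Nat.div_div_eq_div_mul, pow_succ, mul_comm]

theorem dom_of_true {k c : ℕ} (hc : c + 1 < 3 ^ k) (hs : sb (c + 1) = true) :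
    Dom k (c + 1) c := by
  refine ⟨hc, ?_⟩
  induction k generalizing c with
  | zero => intro q hq; omega
  | succ k ih =>
    intro q hq h
    rcases q with _ | q
    · simp only [pow_zero, Nat.div_one] at h
      rw [sb_mod_one h] at hs
      exact absurd hs (by simp)
    · rw [div_pow_succ] at h ⊢
      rcases (by omega : (c + 1) % 3 = 1 ∨ (c + 1) % 3 = 2 ∨ (c + 1) % 3 = 0) with h1 | h1 | h1
      · rw [sb_mod_one h1] at hs
        exact absurd hs (by simp)
      · have : (c + 1) / 3 = c / 3 := by omega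
        rwa [this] at h
      · have e : (c + 1) / 3 = c / 3 + 1 := by omega
        rw [sb_mod_zero h1, e] at hs
        rw [e] at h
        refine ih ?_ hs q (by omega) h
        rw [pow_succ] at hc
        omega

theorem dom_of_false {k c : ℕ} (hc : c < 3 ^ k) (hs : sb (c + 1) = false) :
    Dom k c (c + 1) := by
  refine ⟨hc, ?_⟩
  induction k generalizing c with
  | zero => intro q hq; omega
  | succ k ih =>
    intro q hq h
    rcases q with _ | q
    · simp only [pow_zero, Nat.div_one] at h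
      rw [sb_mod_two (by omega)] at hs
      exact absurd hs (by simp)
    · rw [div_pow_succ] at h ⊢
      rcases (by omega : (c + 1) % 3 = 1 ∨ (c + 1) % 3 = 2 ∨ (c + 1) % 3 = 0) with h1 | h1 | h1
      · have : (c + 1) / 3 = c / 3 := by omega
        rwa [this]
      · rw [sb_mod_two h1] at hs
        exact absurd hs (by simp)
      · have e : (c + 1) / 3 = c / 3 + 1 := by omega
        rw [sb_mod_zero h1, e] at hs
        rw [e]
        refine ih ?_ hs q (by omega) h
        rw [pow_succ] at hc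
        omega

/-- real sign -/
noncomputable def sr (c : ℤ) : ℝ := if sb c.toNat = true then 1 else -1

theorem sr_nat (c : ℕ) : sr (c : ℤ) = if sb c = true then 1 else -1 := by
  simp [sr]

theorem sr_cases (c : ℤ) : sr c = 1 ∨ sr c = -1 := by
  unfold sr
  split_ifs <;> simp

/-- piecewise linear interpolation of the signs -/
noncomputable def Sf (X : ℝ) : ℝ := sr ⌊X⌋ * (1 - Int.fract X) + sr (⌊X⌋ + 1) * Int.fract X

/-- the displacement map -/
noncomputable def Ef (X : ℝ) : ℝ := X + 2 / 3 * Sf X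

/-- the pinching map -/
noncomputable def sig (M X : ℝ) : ℝ :=
  X + (1 / 2 - Int.fract X + 1 / 2 * max (-1) (min 1 (max 1 M * (2 * Int.fract X - 1))))

theorem continuous_of_Icc {g : ℝ → ℝ} (h : ∀ c : ℤ, ContinuousOn g (Set.Icc (c : ℝ) (c + 1))) :
    Continuous g := by
  refine LocallyFinite.continuous (f := fun c : ℤ => Set.Icc (c : ℝ) (c + 1)) ?_ ?_ ?_ h
  · intro x
    refine ⟨Set.Ioo (x - 1) (x + 1), Ioo_mem_nhds (by linarith) (by linarith), ?_⟩
    refine (Set.finite_Icc (⌊x⌋ - 2) (⌊x⌋ + 2)).subset ?_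
    rintro c ⟨y, ⟨hy1, hy2⟩, hy3, hy4⟩
    have h1 := Int.floor_le x
    have h2 := Int.lt_floor_add_one x
    constructor
    · have : ((⌊x⌋ - 2 : ℤ) : ℝ) ≤ (c : ℝ) := by push_cast; linarith
      exact_mod_cast this
    · have : (c : ℝ) ≤ ((⌊x⌋ + 2 : ℤ) : ℝ) := by push_cast; linarith
      exact_mod_cast this
  · rw [Set.eq_univ_iff_forall]
    intro x
    rw [Set.mem_iUnion]
    exact ⟨⌊x⌋, Int.floor_le x, (Int.lt_floor_add_one x).le⟩
  · intro c
    exact isClosed_Icc

theorem Sf_eq {c : ℤ} {X : ℝ} (h1 : (c : ℝ) ≤ X) (h2 : X ≤ c + 1) :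
    Sf X = sr c * (1 - (X - c)) + sr (c + 1) * (X - c) := by
  unfold Sf
  rcases h2.lt_or_eq with h | h
  · have hf : ⌊X⌋ = c := Int.floor_eq_iff.2 ⟨h1, h⟩
    rw [Int.fract, hf]
  · have hf : ⌊X⌋ = c + 1 := by
      rw [h]
      have : ((c : ℝ) + 1) = ((c + 1 : ℤ) : ℝ) := by push_cast; ring
      rw [this, Int.floor_intCast]
    rw [Int.fract, hf, h]
    push_cast
    ring

theorem continuous_Sf : Continuous Sf := by
  refine continuous_of_Icc (fun c => ?_)
  have : Set.EqOn Sf (fun X : ℝ => sr c * (1 - (X - c)) + sr (c + 1) * (X - c))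
      (Set.Icc (c : ℝ) (c + 1)) := fun X hX => Sf_eq hX.1 hX.2
  refine ContinuousOn.congr ?_ this
  fun_prop

theorem continuous_Ef : Continuous Ef := by
  unfold Ef
  exact continuous_id.add (continuous_const.mul continuous_Sf)

theorem Sf_int (c : ℤ) : Sf c = sr c := by
  rw [Sf_eq (c := c) le_rfl (by linarith)]
  ring

theorem Ef_int (c : ℤ) : Ef c = c + 2 / 3 * sr c := by
  rw [Ef, Sf_int]

theorem Sf_le (X : ℝ) : Sf X ≤ 1 := by
  unfold Sf
  have h0 := Int.fract_nonneg X
  have h1 := (Int.fract_lt_one X).le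
  rcases sr_cases ⌊X⌋ with h | h <;> rcases sr_cases (⌊X⌋ + 1) with h' | h' <;>
    rw [h, h'] <;> linarith

theorem le_Sf (X : ℝ) : -1 ≤ Sf X := by
  unfold Sf
  have h0 := Int.fract_nonneg X
  have h1 := (Int.fract_lt_one X).le
  rcases sr_cases ⌊X⌋ with h | h <;> rcases sr_cases (⌊X⌋ + 1) with h' | h' <;>
    rw [h, h'] <;> linarith

theorem sig_eq {c : ℤ} {M X : ℝ} (h1 : (c : ℝ) ≤ X) (h2 : X ≤ c + 1) :
    sig M X = c + 1 / 2 + 1 / 2 * max (-1) (min 1 (max 1 M * (2 * (X - c) - 1))) := by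
  unfold sig
  rcases h2.lt_or_eq with h | h
  · have hf : ⌊X⌋ = c := Int.floor_eq_iff.2 ⟨h1, h⟩
    rw [Int.fract, hf]
    ring
  · have hf : ⌊X⌋ = c + 1 := by
      rw [h]
      have : ((c : ℝ) + 1) = ((c + 1 : ℤ) : ℝ) := by push_cast; ring
      rw [this, Int.floor_intCast]
    have hM : 1 ≤ max 1 M := le_max_left _ _
    rw [Int.fract, hf, h]
    push_cast
    have e1 : min 1 (max 1 M * (2 * ((c : ℝ) + 1 - (c + 1)) - 1)) = - max 1 M := by
      rw [min_eq_right] <;> nlinarith
    have e2 : min 1 (max 1 M * (2 * ((c : ℝ) + 1 - c) - 1)) = 1 := by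
      rw [min_eq_left]; nlinarith
    rw [e1, e2, max_eq_left (by linarith), max_eq_right (by norm_num)]
    ring

theorem continuous_sig : Continuous (fun p : ℝ × ℝ => sig p.1 p.2) := by
  unfold sig
  refine continuous_snd.add ?_
  refine ContinuousOn.comp_fract
    (f := fun (p : ℝ × ℝ) (y : ℝ) =>
      (1 / 2 - y + 1 / 2 * max (-1) (min 1 (max 1 p.1 * (2 * y - 1)))))
    (s := fun p : ℝ × ℝ => p.2) ?_ continuous_snd ?_
  · refine Continuous.continuousOn ?_
    simp only [Function.uncurry_def]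
    fun_prop
  · intro p
    have hM : 1 ≤ max 1 p.1 := le_max_left _ _
    have e1 : min 1 (max 1 p.1 * (2 * (0 : ℝ) - 1)) = - max 1 p.1 := by
      rw [min_eq_right] <;> nlinarith
    have e2 : min 1 (max 1 p.1 * (2 * (1 : ℝ) - 1)) = 1 := by
      rw [min_eq_left]; nlinarith
    show 1 / 2 - (0 : ℝ) + 1 / 2 * max (-1) (min 1 (max 1 p.1 * (2 * (0 : ℝ) - 1))) =
      1 / 2 - 1 + 1 / 2 * max (-1) (min 1 (max 1 p.1 * (2 * (1 : ℝ) - 1)))
    rw [e1, e2, max_eq_left (by linarith), max_eq_right (by norm_num)]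
    norm_num

theorem sig_mem {c : ℤ} {M X : ℝ} (h1 : (c : ℝ) ≤ X) (h2 : X ≤ c + 1) :
    (c : ℝ) ≤ sig M X ∧ sig M X ≤ c + 1 := by
  rw [sig_eq h1 h2]
  have a1 : -1 ≤ max (-1) (min 1 (max 1 M * (2 * (X - c) - 1))) := le_max_left _ _
  have a2 : max (-1) (min 1 (max 1 M * (2 * (X - c) - 1))) ≤ 1 :=
    max_le (by norm_num) (min_le_left _ _)
  constructor <;> linarith

/-- on the closed unit interval the pinching map equals an endpoint as soon as
`M |2 fract - 1| ≥ 1`. -/
theorem sig_eq_left {c : ℤ} {M X : ℝ} (h1 : (c : ℝ) ≤ X) (h2 : X ≤ c + 1)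
    (h : max 1 M * (2 * (X - c) - 1) ≤ -1) : sig M X = c := by
  rw [sig_eq h1 h2, min_eq_right (by linarith), max_eq_left h]
  ring

theorem sig_eq_right {c : ℤ} {M X : ℝ} (h1 : (c : ℝ) ≤ X) (h2 : X ≤ c + 1)
    (h : 1 ≤ max 1 M * (2 * (X - c) - 1)) : sig M X = c + 1 := by
  rw [sig_eq h1 h2, min_eq_left h, max_eq_right (by norm_num)]
  ring

theorem sig_sub_le {M X : ℝ} : |sig M X - X| ≤ 1 / 2 := by
  have h1 := Int.floor_le X
  have h2 := (Int.lt_floor_add_one X).le
  rw [sig_eq h1 h2]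
  set z : ℝ := 2 * (X - ⌊X⌋) - 1 with hz
  have hX : X = ⌊X⌋ + (z + 1) / 2 := by rw [hz]; ring
  have hz1 : -1 ≤ z := by rw [hz]; linarith
  have hz2 : z ≤ 1 := by rw [hz]; linarith
  have hM : 1 ≤ max 1 M := le_max_left _ _
  have e : (⌊X⌋ : ℝ) + 1 / 2 + 1 / 2 * max (-1) (min 1 (max 1 M * z)) - X =
      1 / 2 * (max (-1) (min 1 (max 1 M * z)) - z) := by
    nth_rewrite 2 [hX]
    ring
  rw [e, abs_mul, abs_of_pos (by norm_num : (0 : ℝ) < 1 / 2)]
  have : |max (-1) (min 1 (max 1 M * z)) - z| ≤ 1 := by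
    rw [abs_le]
    rcases le_total 0 z with h0 | h0
    · have a1 : z ≤ min 1 (max 1 M * z) := le_min hz2 (by nlinarith)
      have a2 : max (-1) (min 1 (max 1 M * z)) ≤ 1 := max_le (by norm_num) (min_le_left _ _)
      have a3 : min 1 (max 1 M * z) ≤ max (-1) (min 1 (max 1 M * z)) := le_max_right _ _
      constructor <;> linarith
    · have a1 : max (-1) (min 1 (max 1 M * z)) ≤ z :=
        max_le hz1 ((min_le_right _ _).trans (by nlinarith))
      have a2 : -1 ≤ max (-1) (min 1 (max 1 M * z)) := le_max_left _ _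
      constructor <;> linarith
  linarith

theorem sig_three_sub_le {X : ℝ} : |sig 3 X - X| ≤ 1 / 3 := by
  have h1 := Int.floor_le X
  have h2 := (Int.lt_floor_add_one X).le
  rw [sig_eq h1 h2]
  set z : ℝ := 2 * (X - ⌊X⌋) - 1 with hz
  have hX : X = ⌊X⌋ + (z + 1) / 2 := by rw [hz]; ring
  have hz1 : -1 ≤ z := by rw [hz]; linarith
  have hz2 : z ≤ 1 := by rw [hz]; linarith
  rw [max_eq_right (by norm_num : (1 : ℝ) ≤ 3)]
  have e : (⌊X⌋ : ℝ) + 1 / 2 + 1 / 2 * max (-1) (min 1 (3 * z)) - X =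
      1 / 2 * (max (-1) (min 1 (3 * z)) - z) := by
    nth_rewrite 2 [hX]
    ring
  rw [e, abs_mul, abs_of_pos (by norm_num : (0 : ℝ) < 1 / 2)]
  have : |max (-1) (min 1 (3 * z)) - z| ≤ 2 / 3 := by
    rw [abs_le]
    rcases le_total z (-(1 / 3)) with h0 | h0
    · rw [min_eq_right (by linarith), max_eq_left (by linarith)]
      constructor <;> linarith
    · rcases le_total z (1 / 3) with h3 | h3
      · rw [min_eq_right (by linarith), max_eq_right (by linarith)]
        constructor <;> linarith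
      · rw [min_eq_left (by linarith), max_eq_right (by linarith)]
        constructor <;> linarith
  linarith

theorem sig_one (X : ℝ) : sig 1 X = X := by
  have h1 := Int.floor_le X
  have h2 := (Int.lt_floor_add_one X).le
  rw [sig_eq h1 h2, max_self, one_mul, min_eq_right (by linarith), max_eq_right (by linarith)]
  ring

end Pool.Agent.Helper259.Menger
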