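import Pool.Agent.Helper259.Menger.Coord

/-!
# The parameters of the homotopy between scale `3^{-k}` and scale `3^{-k-1}`
-/

namespace Pool.Agent.Helper259.Menger

open Finset

theorem powersetCard_ne (n : ℕ) :
    (powersetCard n (univ : Finset (Fin (2 * n + 1)))).Nonempty := by
  rw [powersetCard_nonempty, card_univ, Fintype.card_fin]
  omega

/-- the least mean of `n` coordinates -/
noncomputable def beta (n : ℕ) (u : Fin (2 * n + 1) → ℝ) : ℝ :=
  (powersetCard n (univ : Finset (Fin (2 * n + 1)))).inf' (powersetCard_ne n)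
    (fun S => (∑ j ∈ S, u j) / n)

theorem continuous_beta (n : ℕ) : Continuous (beta n) := by
  unfold beta
  refine Continuous.finset_inf'_apply _ (fun S _ => ?_)
  fun_prop

theorem card_lt_beta {n : ℕ} (hn : 1 ≤ n) (u : Fin (2 * n + 1) → ℝ) :
    (univ.filter (fun j => u j < beta n u)).card + 1 ≤ n := by
  by_contra hcon
  obtain ⟨S, hS, hSc⟩ := exists_subset_card_eq (s := univ.filter (fun j => u j < beta n u))
    (n := n) (by omega)
  have h1 : beta n u ≤ (∑ j ∈ S, u j) / n :=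
    inf'_le (fun S : Finset (Fin (2 * n + 1)) => (∑ j ∈ S, u j) / (n : ℝ))
      (mem_powersetCard.2 ⟨subset_univ _, hSc⟩)
  have hn0 : (0 : ℝ) < n := by exact_mod_cast hn
  have h2 : ∑ j ∈ S, u j < ∑ _j ∈ S, beta n u := by
    refine sum_lt_sum_of_nonempty ?_ (fun j hj => (mem_filter.1 (hS hj)).2)
    rw [← card_pos]
    omega
  rw [sum_const, hSc, nsmul_eq_mul] at h2
  rw [le_div_iff₀ hn0] at h1
  linarith

theorem beta_zero {n : ℕ} (hn : 1 ≤ n) {u : Fin (2 * n + 1) → ℝ} (hu : ∀ j, 0 ≤ u j)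
    (h : beta n u ≤ 0) : ∃ S : Finset (Fin (2 * n + 1)), S.card = n ∧ ∀ j ∈ S, u j = 0 := by
  obtain ⟨S, hS, hSe⟩ := exists_mem_eq_inf' (powersetCard_ne n)
    (fun S : Finset (Fin (2 * n + 1)) => (∑ j ∈ S, u j) / (n : ℝ))
  have hn0 : (0 : ℝ) < n := by exact_mod_cast hn
  have h1 : (∑ j ∈ S, u j) / (n : ℝ) ≤ 0 := by
    rw [← hSe]; exact h
  rw [div_le_iff₀ hn0, zero_mul] at h1
  refine ⟨S, (mem_powersetCard.1 hS).2, fun j hj => ?_⟩
  have h2 : u j ≤ ∑ i ∈ S, u i := single_le_sum (fun i _ => hu i) hj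
  exact le_antisymm (h2.trans h1) (hu j)

/-- three times the distance to the centre of the unit interval (normalised) -/
noncomputable def uf (X : ℝ) : ℝ := 3 * |2 * Int.fract X - 1|

theorem uf_nonneg (X : ℝ) : 0 ≤ uf X := by unfold uf; positivity

theorem continuous_uf : Continuous uf := by
  unfold uf
  refine ContinuousOn.comp_fract (f := fun (_ : ℝ) (y : ℝ) => 3 * |2 * y - 1|)
    (s := fun p : ℝ => p) ?_ continuous_id ?_
  · refine Continuous.continuousOn ?_
    simp only [Function.uncurry_def]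
    fun_prop
  · intro p
    show 3 * |2 * (0 : ℝ) - 1| = 3 * |2 * (1 : ℝ) - 1|
    norm_num

variable {n : ℕ}

noncomputable def bf (k : ℕ) (x : Fin (2 * n + 1) → ℝ) : ℝ :=
  beta n (fun j => uf (3 ^ (k + 1) * x j))

noncomputable def Nf (k : ℕ) (x : Fin (2 * n + 1) → ℝ) (τ : ℝ) : ℝ :=
  min 1 (max |4 * τ - 3| (bf k x))

noncomputable def sf (k : ℕ) (x : Fin (2 * n + 1) → ℝ) (τ : ℝ) : ℝ :=
  max 0 (min 1 ((1 + (4 * τ - 3) / Nf k x τ) / 2))

noncomputable def Mf (k : ℕ) (x : Fin (2 * n + 1) → ℝ) (τ : ℝ) : ℝ :=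
  min (1 + 4 * τ) 3 / Nf k x τ

noncomputable def lf (k : ℕ) (x : Fin (2 * n + 1) → ℝ) (τ : ℝ) (j : Fin (2 * n + 1)) : ℝ :=
  max 0 (min 1 ((2 * n + 1) * sf k x τ - (j : ℕ)))

/-- the homotopy between scale `3^{-k}` and scale `3^{-k-1}` -/
noncomputable def Gf (k : ℕ) (x : Fin (2 * n + 1) → ℝ) (τ : ℝ) : Fin (2 * n + 1) → ℝ :=
  fun j => comb (lf k x τ j) (sig (Mf k x τ) (3 ^ (k + 1) * x j)) / 3 ^ k

theorem lf_nonneg (k : ℕ) (x : Fin (2 * n + 1) → ℝ) (τ : ℝ) (j) : 0 ≤ lf k x τ j :=
  le_max_left _ _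

theorem lf_le_one (k : ℕ) (x : Fin (2 * n + 1) → ℝ) (τ : ℝ) (j) : lf k x τ j ≤ 1 :=
  max_le (by norm_num) (min_le_left _ _)

/-- continuity of the homotopy -/
theorem continuous_Gf {Z : Type*} [TopologicalSpace Z] (k : ℕ) {x : Z → Fin (2 * n + 1) → ℝ}
    {τ : Z → ℝ} (hx : Continuous x) (hτ : Continuous τ) (hN : ∀ z, 0 < Nf k (x z) (τ z)) :
    Continuous (fun z => Gf k (x z) (τ z)) := by
  have hxj : ∀ j, Continuous (fun z => x z j) := fun j => (continuous_apply j).comp hx
  have hb : Continuous (fun z => bf k (x z)) := by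
    unfold bf
    refine (continuous_beta n).comp (continuous_pi (fun j => ?_))
    exact continuous_uf.comp (continuous_const.mul (hxj j))
  have hNc : Continuous (fun z => Nf k (x z) (τ z)) := by
    unfold Nf
    fun_prop
  have hs : Continuous (fun z => sf k (x z) (τ z)) := by
    unfold sf
    refine continuous_const.max (continuous_const.min ?_)
    refine Continuous.div_const (continuous_const.add (Continuous.div ?_ hNc ?_)) _
    · fun_prop
    · exact fun z => (hN z).ne'
  have hM : Continuous (fun z => Mf k (x z) (τ z)) := by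
    unfold Mf
    refine Continuous.div ?_ hNc (fun z => (hN z).ne')
    fun_prop
  have hl : ∀ j, Continuous (fun z => lf k (x z) (τ z) j) := by
    intro j
    unfold lf
    fun_prop
  refine continuous_pi (fun j => ?_)
  unfold Gf
  refine Continuous.div_const ?_ _
  have hY : Continuous (fun z => sig (Mf k (x z) (τ z)) (3 ^ (k + 1) * x z j)) :=
    continuous_sig.comp (hM.prodMk (continuous_const.mul (hxj j)))
  unfold comb
  refine Continuous.add (Continuous.mul ?_ ?_) (Continuous.mul (hl j) ?_)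
  · exact continuous_const.sub (hl j)
  · refine continuous_Ef.comp (continuous_sig.comp (continuous_const.prodMk ?_))
    exact hY.div_const _
  · exact (continuous_Ef.comp hY).div_const _

theorem sig3_int {c : ℤ} : ∃ g : ℤ, sig 3 ((c : ℝ) / 3) = g := by
  obtain ⟨g, hg⟩ : ∃ g : ℤ, c = 3 * g ∨ c = 3 * g + 1 ∨ c = 3 * g + 2 :=
    ⟨c / 3, by omega⟩
  have m3 : max (1 : ℝ) 3 = 3 := by norm_num
  rcases hg with h | h | h
  · refine ⟨g, sig_eq_left (by rw [h]; push_cast; linarith) (by rw [h]; push_cast; linarith) ?_⟩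
    rw [m3, h]; push_cast; linarith
  · refine ⟨g, sig_eq_left (by rw [h]; push_cast; linarith) (by rw [h]; push_cast; linarith) ?_⟩
    rw [m3, h]; push_cast; linarith
  · refine ⟨g + 1, ?_⟩
    rw [sig_eq_right (c := g) (by rw [h]; push_cast; linarith)
      (by rw [h]; push_cast; linarith) ?_]
    · push_cast; ring
    · rw [m3, h]; push_cast; linarith

/-- if the last digit is not `1`, the pinching map with factor at least `3` sends the point to
a grid point one level up -/
theorem sig_of_digit {a : ℕ} {M X : ℝ} (hM : 3 ≤ M) (h1 : (a : ℝ) ≤ 3 * X)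
    (h2 : 3 * X ≤ a + 1) (ha : a % 3 ≠ 1) : ∃ g : ℤ, sig M X = g := by
  have m3 : max (1 : ℝ) M = M := max_eq_right (by linarith)
  obtain ⟨g, hg⟩ : ∃ g : ℕ, a = 3 * g ∨ a = 3 * g + 2 := ⟨a / 3, by omega⟩
  rcases hg with h | h
  · rw [h] at h1 h2
    push_cast at h1 h2
    refine ⟨(g : ℤ), sig_eq_left (by push_cast; linarith) (by push_cast; linarith) ?_⟩
    rw [m3]
    push_cast
    nlinarith
  · rw [h] at h1 h2
    push_cast at h1 h2
    refine ⟨(g : ℤ) + 1, ?_⟩
    rw [sig_eq_right (c := (g : ℤ)) (by push_cast; linarith) (by push_cast; linarith) ?_]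
    · push_cast; ring
    · rw [m3]
      push_cast
      nlinarith

theorem exists_F (hn : 1 ≤ n) (k : ℕ) {x : Fin (2 * n + 1) → ℝ} (hx : x ∈ menger n) {τ : ℝ}
    (hτ0 : 0 ≤ τ) (hτ1 : τ ≤ 1) (hN : 0 < Nf k x τ) :
    ∃ F : Finset (Fin (2 * n + 1)), F.card ≤ n ∧
      ∀ j ∉ F, NonFree (lf k x τ j) (sig (Mf k x τ) (3 ^ (k + 1) * x j)) := by
  have hN1 : Nf k x τ ≤ 1 := min_le_left _ _
  have habs : |4 * τ - 3| ≤ 3 := by rw [abs_le]; constructor <;> linarith
  have hs0 : 0 ≤ sf k x τ := le_max_left _ _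
  have hs1 : sf k x τ ≤ 1 := max_le (by norm_num) (min_le_left _ _)
  rcases hs0.eq_or_lt with hs | hs
  · -- `s = 0`
    obtain ⟨a, ha, hax⟩ := exists_kept hx (k + 1)
    refine ⟨univ.filter (fun j => a j % 3 = 1), ha.2, fun j hj => Or.inl ⟨?_, ?_⟩⟩
    · unfold lf
      rw [← hs, mul_zero]
      have : (0 : ℝ) - ((j : ℕ) : ℝ) ≤ 0 := by
        have : (0 : ℝ) ≤ ((j : ℕ) : ℝ) := Nat.cast_nonneg _
        linarith
      rw [min_eq_right (by linarith), max_eq_left this]
    · have hj' : a j % 3 ≠ 1 := by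
        intro h
        exact hj (mem_filter.2 ⟨mem_univ _, h⟩)
      obtain ⟨g1, g2⟩ := hax j
      obtain ⟨g3, g4⟩ := sig_mem_nat (M := Mf k x τ) g1 g2
      exact sig_of_digit le_rfl (by linarith) (by linarith) hj'
  · rcases hs1.eq_or_lt with hs' | hs'
    · -- `s = 1`
      have hge : 1 ≤ (1 + (4 * τ - 3) / Nf k x τ) / 2 := by
        by_contra hcon
        push Not at hcon
        have : sf k x τ < 1 := by
          unfold sf
          rw [min_eq_right hcon.le]
          exact max_lt (by norm_num) hcon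
        linarith
      have h1 : 1 ≤ (4 * τ - 3) / Nf k x τ := by linarith
      rw [le_div_iff₀ hN, one_mul] at h1
      have hM : 3 ≤ Mf k x τ := by
        unfold Mf
        rw [min_eq_right (by linarith), le_div_iff₀ hN]
        linarith
      obtain ⟨a, ha, hax⟩ := exists_kept hx (k + 1 + 1)
      refine ⟨univ.filter (fun j => a j % 3 = 1), ha.2, fun j hj => Or.inr ⟨?_, ?_⟩⟩
      · unfold lf
        rw [hs', mul_one]
        have hj2 : ((j : ℕ) : ℝ) ≤ 2 * n := by
          have := j.2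
          exact_mod_cast (by omega : (j : ℕ) ≤ 2 * n)
        rw [min_eq_left (by linarith), max_eq_right (by norm_num)]
      · have hj' : a j % 3 ≠ 1 := by
          intro h
          exact hj (mem_filter.2 ⟨mem_univ _, h⟩)
        obtain ⟨g1, g2⟩ := hax j
        refine sig_of_digit hM ?_ ?_ hj'
        · calc (a j : ℝ) ≤ _ := g1
            _ = _ := by ring
        · calc (3 : ℝ) * (3 ^ (k + 1) * x j) = 3 ^ (k + 1 + 1) * x j := by ring
            _ ≤ _ := g2
    · -- `0 < s < 1`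
      have hsv : sf k x τ = (1 + (4 * τ - 3) / Nf k x τ) / 2 := by
        unfold sf at hs hs' ⊢
        rcases le_total ((1 + (4 * τ - 3) / Nf k x τ) / 2) 0 with h | h
        · rw [min_eq_right (by linarith), max_eq_left h] at hs
          exact absurd hs (lt_irrefl _)
        · rcases le_total 1 ((1 + (4 * τ - 3) / Nf k x τ) / 2) with h' | h'
          · rw [min_eq_left h', max_eq_right (by norm_num)] at hs'
            exact absurd hs' (lt_irrefl _)
          · rw [min_eq_right h', max_eq_right h]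
      have h1 : (4 * τ - 3) / Nf k x τ < 1 := by linarith
      have h2 : -1 < (4 * τ - 3) / Nf k x τ := by linarith
      rw [div_lt_iff₀ hN, one_mul] at h1
      rw [lt_div_iff₀ hN] at h2
      have habs2 : |4 * τ - 3| < Nf k x τ := by
        rw [abs_lt]; constructor <;> linarith
      have hNb : Nf k x τ ≤ bf k x := by
        by_contra hcon
        push Not at hcon
        have : Nf k x τ ≤ max |4 * τ - 3| (bf k x) := min_le_right _ _
        rcases le_max_iff.1 this with h | h <;> linarith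
      have hMv : Mf k x τ = 3 / Nf k x τ := by
        unfold Mf
        rw [min_eq_right (by linarith)]
      have hM1 : 1 ≤ Mf k x τ := by
        rw [hMv, le_div_iff₀ hN]; linarith
      set F1 := univ.filter (fun j => uf (3 ^ (k + 1) * x j) < bf k x) with hF1
      set F2 := univ.filter (fun j => lf k x τ j ≠ 0 ∧ lf k x τ j ≠ 1) with hF2
      have hc1 : F1.card + 1 ≤ n := card_lt_beta hn (fun j => uf (3 ^ (k + 1) * x j))
      have hF2' : ∀ j, (lf k x τ j ≠ 0 ∧ lf k x τ j ≠ 1) →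
          0 < (2 * n + 1) * sf k x τ - (j : ℕ) ∧ (2 * n + 1) * sf k x τ - (j : ℕ) < 1 := by
        intro j ⟨hj0, hj1⟩
        constructor
        · by_contra hcon
          push Not at hcon
          apply hj0
          unfold lf
          rw [min_eq_right (by linarith), max_eq_left hcon]
        · by_contra hcon
          push Not at hcon
          apply hj1
          unfold lf
          rw [min_eq_left (by linarith), max_eq_right (by norm_num)]
      have hc2 : F2.card ≤ 1 := by
        rw [card_le_one]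
        intro i hi j hj
        obtain ⟨i1, i2⟩ := hF2' i (mem_filter.1 hi).2
        obtain ⟨j1, j2⟩ := hF2' j (mem_filter.1 hj).2
        apply Fin.ext
        by_contra hne
        rcases Nat.lt_or_gt_of_ne hne with h | h
        · have : ((i : ℕ) : ℝ) + 1 ≤ ((j : ℕ) : ℝ) := by exact_mod_cast h
          linarith
        · have : ((j : ℕ) : ℝ) + 1 ≤ ((i : ℕ) : ℝ) := by exact_mod_cast h
          linarith
      refine ⟨F1 ∪ F2, (card_union_le _ _).trans (by omega), fun j hj => ?_⟩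
      rw [mem_union, not_or] at hj
      obtain ⟨hj1, hj2⟩ := hj
      have hu : Nf k x τ ≤ uf (3 ^ (k + 1) * x j) := by
        by_contra hcon
        push Not at hcon
        exact hj1 (mem_filter.2 ⟨mem_univ _, lt_of_lt_of_le hcon hNb⟩)
      have hY : ∃ c : ℤ, sig (Mf k x τ) (3 ^ (k + 1) * x j) = c := by
        set X := 3 ^ (k + 1) * x j with hX
        have f1 := Int.floor_le X
        have f2 := (Int.lt_floor_add_one X).le
        have hmM : max 1 (Mf k x τ) = Mf k x τ := max_eq_right hM1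
        unfold uf at hu
        rw [Int.fract] at hu
        rcases le_total 0 (2 * (X - ⌊X⌋) - 1) with h | h
        · rw [abs_of_nonneg h] at hu
          refine ⟨⌊X⌋ + 1, ?_⟩
          rw [sig_eq_right f1 f2 ?_]
          · push_cast; ring
          · rw [hmM, hMv, div_mul_eq_mul_div, le_div_iff₀ hN]
            linarith
        · rw [abs_of_nonpos h] at hu
          refine ⟨⌊X⌋, ?_⟩
          rw [sig_eq_left f1 f2 ?_]
          rw [hmM, hMv, div_mul_eq_mul_div, div_le_iff₀ hN]
          linarith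
      by_cases h0 : lf k x τ j = 0
      · refine Or.inl ⟨h0, ?_⟩
        obtain ⟨c, hc⟩ := hY
        rw [hc]
        exact sig3_int
      · by_cases h1 : lf k x τ j = 1
        · exact Or.inr ⟨h1, hY⟩
        · exact absurd (mem_filter.2 ⟨mem_univ _, h0, h1⟩) hj2

theorem Gf_mem (hn : 1 ≤ n) (k : ℕ) {x : Fin (2 * n + 1) → ℝ} (hx : x ∈ menger n) {τ : ℝ}
    (hτ0 : 0 ≤ τ) (hτ1 : τ ≤ 1) (hN : 0 < Nf k x τ) : Gf k x τ ∈ menger n := by
  obtain ⟨F, hF, hnf⟩ := exists_F hn k hx hτ0 hτ1 hN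
  exact comb_mem_menger hx (lf_nonneg k x τ) (lf_le_one k x τ) F hF hnf

theorem Gf_ne (hn : 1 ≤ n) (k : ℕ) {x : Fin (2 * n + 1) → ℝ} (hx : x ∈ menger n) {τ : ℝ}
    (hτ0 : 0 ≤ τ) (hτ1 : τ ≤ 1) (hN : 0 < Nf k x τ) : Gf k x τ ≠ x := by
  obtain ⟨F, hF, hnf⟩ := exists_F hn k hx hτ0 hτ1 hN
  obtain ⟨j, hj⟩ : ∃ j, j ∉ F := by
    by_contra hcon
    push Not at hcon
    have : F = univ := eq_univ_iff_forall.2 hcon
    rw [this, card_univ, Fintype.card_fin] at hF
    omega
  intro h
  have hj' := congrFun h j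
  unfold Gf at hj'
  have h3 : (3 : ℝ) ^ k ≠ 0 := by positivity
  rw [div_eq_iff h3] at hj'
  have hnfj := hnf j hj
  have e : (3 : ℝ) ^ (k + 1) * x j = 3 * (3 ^ k * x j) := by ring
  rw [e] at hj' hnfj
  exact displaced hnfj (by rw [hj']; ring)

theorem Gf_zero (k : ℕ) (x : Fin (2 * n + 1) → ℝ) :
    Gf k x 0 = fun j => Ef (sig 3 (3 ^ k * x j)) / 3 ^ k := by
  have hN : Nf k x 0 = 1 := by
    unfold Nf
    rw [min_eq_left]
    refine le_max_of_le_left ?_
    norm_num
  have hM : Mf k x 0 = 1 := by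
    unfold Mf
    rw [hN]; norm_num
  have hs : sf k x 0 = 0 := by
    unfold sf
    rw [hN]; norm_num
  have hl : ∀ j, lf k x 0 j = 0 := by
    intro j
    unfold lf
    rw [hs, mul_zero]
    have : (0 : ℝ) ≤ ((j : ℕ) : ℝ) := Nat.cast_nonneg _
    rw [min_eq_right (by linarith), max_eq_left (by linarith)]
  funext j
  unfold Gf comb
  rw [hl, hM, sig_one]
  have : (3 : ℝ) ^ (k + 1) * x j / 3 = 3 ^ k * x j := by rw [pow_succ]; ring
  rw [this]
  ring

theorem Gf_one (k : ℕ) (x : Fin (2 * n + 1) → ℝ) : Gf k x 1 = Gf (k + 1) x 0 := by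
  rw [Gf_zero]
  have hN : Nf k x 1 = 1 := by
    unfold Nf
    rw [min_eq_left]
    refine le_max_of_le_left ?_
    norm_num
  have hM : Mf k x 1 = 3 := by
    unfold Mf
    rw [hN]; norm_num
  have hs : sf k x 1 = 1 := by
    unfold sf
    rw [hN]; norm_num
  have hl : ∀ j, lf k x 1 j = 1 := by
    intro j
    unfold lf
    rw [hs, mul_one]
    have hj2 : ((j : ℕ) : ℝ) ≤ 2 * n := by
      have := j.2
      exact_mod_cast (by omega : (j : ℕ) ≤ 2 * n)
    rw [min_eq_left (by linarith), max_eq_right (by norm_num)]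
  funext j
  unfold Gf comb
  rw [hl, hM, pow_succ]
  ring

theorem Gf_dist (k : ℕ) {x : Fin (2 * n + 1) → ℝ} (hx : x ∈ menger n) (τ : ℝ) :
    dist (Gf k x τ) x ≤ 2 / 3 ^ k := by
  obtain ⟨b, hb, hbx⟩ := exists_kept hx k
  have h3 : (0 : ℝ) < 3 ^ k := by positivity
  rw [dist_pi_le_iff (by positivity)]
  intro j
  obtain ⟨g1, g2⟩ := hbx j
  obtain ⟨y1, y2⟩ := sig_mem3 (b := b j) (M := Mf k x τ) (X := 3 ^ (k + 1) * x j)
    (by rw [pow_succ]; linarith) (by rw [pow_succ]; linarith)
  obtain ⟨c1, c2⟩ := comb_bounds (lf_nonneg k x τ j) (lf_le_one k x τ j) y1 y2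
  have c3 : (b j : ℝ) - 1 ≤ comb (lf k x τ j) (sig (Mf k x τ) (3 ^ (k + 1) * x j)) := by
    refine le_trans ?_ c1
    split_ifs <;> linarith
  have c4 : comb (lf k x τ j) (sig (Mf k x τ) (3 ^ (k + 1) * x j)) ≤ (b j : ℝ) + 2 := by
    refine le_trans c2 ?_
    split_ifs <;> linarith
  rw [Real.dist_eq]
  unfold Gf
  have e : comb (lf k x τ j) (sig (Mf k x τ) (3 ^ (k + 1) * x j)) / 3 ^ k - x j =
      (comb (lf k x τ j) (sig (Mf k x τ) (3 ^ (k + 1) * x j)) - 3 ^ k * x j) / 3 ^ k := by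
    field_simp
  rw [e, abs_div, abs_of_pos h3, div_le_div_iff_of_pos_right h3, abs_le]
  constructor <;> linarith

end Pool.Agent.Helper259.Menger
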